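import Pool.Agent.H606.OS.Stm

open MeasureTheory Filter Topology Finset
open Pool.Agent.H606.OS

namespace Pool.Agent.H640.OS.KN

lemma bpos {b0 : ℝ} (h : 0 < b0) (i : ℕ) : 0 < b0 / 2 ^ i := by positivity

lemma ble {b0 : ℝ} (h : 0 < b0) {i n : ℕ} (hin : i ≤ n) : b0 / 2 ^ n ≤ b0 / 2 ^ i := by
  apply div_le_div_of_nonneg_left h.le (by positivity)
  exact pow_le_pow_right₀ (by norm_num) hin

theorem t_KN (hKK : S_KK) : S_KN := by
  obtain ⟨C, hC1, hcont, hk0, heven, hnn, hanti, hka, hup, hlow, -⟩ := hKK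
  have hpi := Real.pi_pos
  have hle0 : ∀ x : ℝ, 0 ≤ x → kk x ≤ kk 0 := fun x hx =>
    hanti (Set.mem_Ici.mpr le_rfl) (Set.mem_Ici.mpr hx) hx
  -- the terms are nonnegative
  have hterm : ∀ (b0 δ : ℝ) (n i : ℕ), 0 < b0 → 0 < δ → δ ≤ b0 / 2 ^ n → i ≤ n → ∀ u : ℝ, 0 ≤ u →
      0 ≤ (kk (2 * Real.pi * δ * u) - kk (2 * Real.pi * (b0 / 2 ^ i) * u)) / (b0 / 2 ^ i) ^ 2 := by
    intro b0 δ n i hb0 hδ hδn hin u hu
    apply div_nonneg _ (by positivity)
    rw [sub_nonneg]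
    apply hanti (Set.mem_Ici.mpr (by positivity))
      (Set.mem_Ici.mpr (mul_nonneg (mul_nonneg (by positivity) (bpos hb0 i).le) hu))
    apply mul_le_mul_of_nonneg_right _ hu
    apply mul_le_mul_of_nonneg_left (hδn.trans (ble hb0 hin)) (by positivity)
  refine ⟨4 * Real.pi ^ 2, by positivity, ?_, ?_⟩
  · intro n b0 δ hb0 hb012 hδ hδn
    refine ⟨?_, ?_, ?_, ?_, ?_⟩
    · unfold Kn
      apply continuous_finsetSum
      intro i _
      apply Continuous.div_const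
      exact (hcont.comp (by fun_prop)).sub (hcont.comp (by fun_prop))
    · simp [Kn]
    · intro u
      unfold Kn
      apply Finset.sum_congr rfl
      intro i _
      rw [mul_neg, mul_neg, heven, heven]
    · intro u hu
      refine ⟨?_, ?_⟩
      · unfold Kn
        apply Finset.sum_nonneg
        intro i hi
        exact hterm b0 δ n i hb0 hδ hδn (Finset.mem_range.mp hi).le u hu
      · unfold Kn
        have : ∀ i ∈ range n, (kk (2 * Real.pi * δ * u) - kk (2 * Real.pi * (b0 / 2 ^ i) * u)) /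
            (b0 / 2 ^ i) ^ 2 ≤ 4 * Real.pi ^ 2 * u ^ 2 := by
          intro i _
          have hb := bpos hb0 i
          rw [div_le_iff₀ (by positivity)]
          have h1 := hup (2 * Real.pi * (b0 / 2 ^ i) * u)
          have h2 := hle0 (2 * Real.pi * δ * u) (by positivity)
          nlinarith [h1, h2]
        calc _ ≤ ∑ i ∈ range n, 4 * Real.pi ^ 2 * u ^ 2 := Finset.sum_le_sum this
          _ = 4 * Real.pi ^ 2 * n * u ^ 2 := by
            rw [Finset.sum_const, Finset.card_range, nsmul_eq_mul]; ring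
    · set c := 2 * Real.pi * δ with hc
      have hcpos : 0 < c := by positivity
      refine ⟨∑ i ∈ range n, C * (1 + 1 / c ^ 2) / (b0 / 2 ^ i) ^ 2, ?_⟩
      intro u hu
      unfold Kn
      rw [Finset.sum_mul]
      apply Finset.sum_le_sum
      intro i _
      have hb := bpos hb0 i
      rw [div_mul_eq_mul_div]
      apply div_le_div_of_nonneg_right _ (by positivity)
      have h1 := hka (c * u)
      have h2 := hnn (2 * Real.pi * (b0 / 2 ^ i) * u)
      have h3 : ka (c * u) ≤ (1 + 1 / c ^ 2) * ka u := by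
        unfold ka
        rw [mul_one_div, div_le_div_iff₀ (by positivity) (by positivity)]
        have : (1 + 1 / c ^ 2) * (1 + (c * u) ^ 2) = 1 + c ^ 2 * u ^ 2 + 1 / c ^ 2 + u ^ 2 := by
          field_simp
          ring
        rw [this]
        have h4 : 0 ≤ c ^ 2 * u ^ 2 := by positivity
        have h5 : 0 ≤ 1 / c ^ 2 := by positivity
        linarith
      have h4 : C * ka (c * u) ≤ C * ((1 + 1 / c ^ 2) * ka u) :=
        mul_le_mul_of_nonneg_left h3 (by linarith)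
      calc kk (c * u) - kk (2 * Real.pi * (b0 / 2 ^ i) * u) ≤ kk (c * u) := by linarith
        _ ≤ C * ka (c * u) := h1
        _ ≤ C * ((1 + 1 / c ^ 2) * ka u) := h4
        _ = C * (1 + 1 / c ^ 2) * ka u := by ring
  · intro α β hα hαβ
    have hβ : 0 < β := hα.trans hαβ
    -- choose `i0`
    obtain ⟨i0, hi0⟩ : ∃ i0 : ℕ, 2 * Real.pi * ((1 / 12 : ℝ) / 2 ^ i0) * β ≤ 1 := by
      obtain ⟨i0, hi0⟩ := pow_unbounded_of_one_lt (2 * Real.pi * (1 / 12) * β) (one_lt_two (α := ℝ))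
      refine ⟨i0, ?_⟩
      have h2 : (0 : ℝ) < 2 ^ i0 := by positivity
      have : 2 * Real.pi * ((1 / 12 : ℝ) / 2 ^ i0) * β = (2 * Real.pi * (1 / 12) * β) / 2 ^ i0 := by
        ring
      rw [this, div_le_one h2]
      exact hi0.le
    refine ⟨2 * i0, ?_⟩
    intro n hn
    have hbn := bpos (b0 := (1 / 12 : ℝ)) (by norm_num) n
    refine ⟨min ((1 / 12 : ℝ) / 2 ^ n) (α * ((1 / 12 : ℝ) / 2 ^ n) / (4 * Real.pi * β)),
      lt_min hbn (by positivity), ?_⟩
    intro δ hδ hδ0 u hu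
    have hδn : δ ≤ (1 / 12 : ℝ) / 2 ^ n := hδ0.trans (min_le_left _ _)
    have hδα : δ ≤ α * ((1 / 12 : ℝ) / 2 ^ n) / (4 * Real.pi * β) := hδ0.trans (min_le_right _ _)
    have hu0 : 0 ≤ u := hα.le.trans hu.1
    have hin : i0 ≤ n := by omega
    unfold Kn
    rw [← Finset.sum_range_add_sum_Ico _ hin]
    have h1 : 0 ≤ ∑ i ∈ range i0, (kk (2 * Real.pi * δ * u) -
        kk (2 * Real.pi * ((1 / 12 : ℝ) / 2 ^ i) * u)) / ((1 / 12 : ℝ) / 2 ^ i) ^ 2 := by
      apply Finset.sum_nonneg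
      intro i hi
      exact hterm _ δ n i (by norm_num) hδ hδn ((Finset.mem_range.mp hi).le.trans hin) u hu0
    have h2 : ∀ i ∈ Ico i0 n, α ^ 2 / 4 ≤ (kk (2 * Real.pi * δ * u) -
        kk (2 * Real.pi * ((1 / 12 : ℝ) / 2 ^ i) * u)) / ((1 / 12 : ℝ) / 2 ^ i) ^ 2 := by
      intro i hi
      obtain ⟨hi1, hi2⟩ := Finset.mem_Ico.mp hi
      set b := (1 / 12 : ℝ) / 2 ^ i with hb
      have hbpos : 0 < b := bpos (by norm_num) i
      have hbn' : (1 / 12 : ℝ) / 2 ^ n ≤ b := ble (by norm_num) hi2.le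
      have hbi0 : b ≤ (1 / 12 : ℝ) / 2 ^ i0 := ble (by norm_num) hi1
      have harg : 2 * Real.pi * b * u ≤ 1 := by
        calc 2 * Real.pi * b * u ≤ 2 * Real.pi * ((1 / 12 : ℝ) / 2 ^ i0) * β := by
              apply mul_le_mul _ hu.2 hu0 (by positivity)
              apply mul_le_mul_of_nonneg_left hbi0 (by positivity)
          _ ≤ 1 := hi0
      have hl := hlow (2 * Real.pi * b * u) (by
        rw [abs_of_nonneg (by positivity)]; exact harg)
      have hu' := hup (2 * Real.pi * δ * u)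
      -- 2πδu ≤ α b / 2
      have hd : 2 * Real.pi * δ * u ≤ α * b / 2 := by
        have h3 : δ * (4 * Real.pi * β) ≤ α * ((1 / 12 : ℝ) / 2 ^ n) := by
          rwa [le_div_iff₀ (by positivity)] at hδα
        have h4 : α * ((1 / 12 : ℝ) / 2 ^ n) ≤ α * b := mul_le_mul_of_nonneg_left hbn' hα.le
        have h5 : 2 * Real.pi * δ * u ≤ 2 * Real.pi * δ * β :=
          mul_le_mul_of_nonneg_left hu.2 (by positivity)
        nlinarith [h3, h4, h5]
      have hd2 : (2 * Real.pi * δ * u) ^ 2 ≤ (α * b / 2) ^ 2 :=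
        pow_le_pow_left₀ (by positivity) hd 2
      have hpi3 : (9 : ℝ) < Real.pi ^ 2 := by nlinarith [Real.pi_gt_three]
      have hlb : 36 / 60 * (α ^ 2 * b ^ 2) ≤ (2 * Real.pi * b * u) ^ 2 / 60 := by
        have hu2 : α ^ 2 ≤ u ^ 2 := pow_le_pow_left₀ hα.le hu.1 2
        have h6 : α ^ 2 * b ^ 2 ≤ u ^ 2 * b ^ 2 := mul_le_mul_of_nonneg_right hu2 (by positivity)
        have h7 : 9 * (u ^ 2 * b ^ 2) ≤ Real.pi ^ 2 * (u ^ 2 * b ^ 2) :=
          mul_le_mul_of_nonneg_right hpi3.le (by positivity)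
        nlinarith [h6, h7]
      rw [le_div_iff₀ (by positivity)]
      have h8 : 0 ≤ α ^ 2 * b ^ 2 := by positivity
      nlinarith [hl, hu', hd2, hlb, h8]
    have h3 : ((n : ℝ) - i0) * (α ^ 2 / 4) ≤ ∑ i ∈ Ico i0 n, (kk (2 * Real.pi * δ * u) -
        kk (2 * Real.pi * ((1 / 12 : ℝ) / 2 ^ i) * u)) / ((1 / 12 : ℝ) / 2 ^ i) ^ 2 := by
      calc ((n : ℝ) - i0) * (α ^ 2 / 4) = ∑ i ∈ Ico i0 n, (α ^ 2 / 4) := by
            rw [Finset.sum_const, Nat.card_Ico, nsmul_eq_mul, Nat.cast_sub hin]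
        _ ≤ _ := Finset.sum_le_sum h2
    have h4 : (2 * (i0 : ℝ)) ≤ n := by exact_mod_cast hn
    have h5 : 0 ≤ α ^ 2 := by positivity
    nlinarith [h1, h3, h4, h5, mul_nonneg (sub_nonneg.mpr h4) h5]

end Pool.Agent.H640.OS.KN
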